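import Pool.Agent.Helper73.Dil.Pure

/-! # Module GROW of the dilation surface project -/

open Topology Set Filter MeasureTheory Metric

namespace Pool.Agent.Helper25.Dil

set_option maxHeartbeats 400000

open Pool.Agent.Helper73.Dil

/-! ### Elementary facts on `hs` and `tn` -/

theorem det_eq (A : G) : A.1 0 0 * A.1 1 1 - A.1 0 1 * A.1 1 0 = 1 := by
  have := A.2
  rwa [Matrix.det_fin_two] at this

theorem mul00 (A B : G) : (A * B).1 0 0 = A.1 0 0 * B.1 0 0 + A.1 0 1 * B.1 1 0 := by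
  rw [Matrix.SpecialLinearGroup.coe_mul, Matrix.mul_apply, Fin.sum_univ_two]

theorem mul01 (A B : G) : (A * B).1 0 1 = A.1 0 0 * B.1 0 1 + A.1 0 1 * B.1 1 1 := by
  rw [Matrix.SpecialLinearGroup.coe_mul, Matrix.mul_apply, Fin.sum_univ_two]

theorem mul10 (A B : G) : (A * B).1 1 0 = A.1 1 0 * B.1 0 0 + A.1 1 1 * B.1 1 0 := by
  rw [Matrix.SpecialLinearGroup.coe_mul, Matrix.mul_apply, Fin.sum_univ_two]

theorem mul11 (A B : G) : (A * B).1 1 1 = A.1 1 0 * B.1 0 1 + A.1 1 1 * B.1 1 1 := by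
  rw [Matrix.SpecialLinearGroup.coe_mul, Matrix.mul_apply, Fin.sum_univ_two]

theorem inv00 (A : G) : (A⁻¹).1 0 0 = A.1 1 1 := by
  rw [Matrix.SpecialLinearGroup.coe_inv, Matrix.adjugate_fin_two]; rfl

theorem inv01 (A : G) : (A⁻¹).1 0 1 = - A.1 0 1 := by
  rw [Matrix.SpecialLinearGroup.coe_inv, Matrix.adjugate_fin_two]; rfl

theorem inv10 (A : G) : (A⁻¹).1 1 0 = - A.1 1 0 := by
  rw [Matrix.SpecialLinearGroup.coe_inv, Matrix.adjugate_fin_two]; rfl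

theorem inv11 (A : G) : (A⁻¹).1 1 1 = A.1 0 0 := by
  rw [Matrix.SpecialLinearGroup.coe_inv, Matrix.adjugate_fin_two]; rfl

theorem hs_nonneg (A : G) : 0 ≤ hs A := Real.sqrt_nonneg _

theorem tn_nonneg (A : G) : 0 ≤ tn A := Real.sqrt_nonneg _

theorem hs_sq (A : G) : hs A ^ 2 = A.1 0 0 ^ 2 + A.1 0 1 ^ 2 + A.1 1 0 ^ 2 + A.1 1 1 ^ 2 := by
  unfold hs
  rw [Real.sq_sqrt (by positivity)]

theorem tn_sq (A : G) : tn A ^ 2 = ((A.1 0 0 - A.1 1 1) / 2) ^ 2 +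
    (A.1 0 1 ^ 2 + A.1 1 0 ^ 2) / 2 := by
  unfold tn
  rw [Real.sq_sqrt (by positivity)]

theorem hs_mul (A B : G) : hs (A * B) ≤ hs A * hs B := by
  refine le_of_sq_le_sq ?_ (mul_nonneg (hs_nonneg _) (hs_nonneg _))
  rw [mul_pow, hs_sq, hs_sq, hs_sq, mul00, mul01, mul10, mul11]
  nlinarith [sq_nonneg (A.1 0 0 * B.1 1 0 - A.1 0 1 * B.1 0 0),
    sq_nonneg (A.1 0 0 * B.1 1 1 - A.1 0 1 * B.1 0 1),
    sq_nonneg (A.1 1 0 * B.1 1 0 - A.1 1 1 * B.1 0 0),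
    sq_nonneg (A.1 1 0 * B.1 1 1 - A.1 1 1 * B.1 0 1)]

theorem hs_inv (A : G) : hs A⁻¹ = hs A := by
  unfold hs
  rw [inv00, inv01, inv10, inv11]
  congr 1
  ring

theorem hs_le_tn (A : G) : hs A ^ 2 ≤ 2 + 4 * tn A ^ 2 := by
  rw [hs_sq, tn_sq]
  have := det_eq A
  nlinarith [sq_nonneg (A.1 0 1 - A.1 1 0)]

theorem continuous_entry (i j : Fin 2) : Continuous (fun A : G => A.1 i j) :=
  (continuous_apply j).comp ((continuous_apply i).comp continuous_subtype_val)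

theorem continuous_tn : Continuous tn := by
  unfold tn
  have h00 := continuous_entry 0 0
  have h01 := continuous_entry 0 1
  have h10 := continuous_entry 1 0
  have h11 := continuous_entry 1 1
  fun_prop

theorem tn_one : tn 1 = 0 := by
  have h : tn (1 : G) ^ 2 = 0 := by
    rw [tn_sq]
    simp
  exact pow_eq_zero_iff (two_ne_zero) |>.1 h

/-! ### The thick part -/

/-- `g` is `δ`-thick -/
def Th (Γ : Subgroup G) (δ : ℝ) (g : G) : Prop :=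
  ∀ γ ∈ Γ, γ ≠ 1 → γ ≠ -1 → δ ≤ tn (g * γ * g⁻¹)

theorem nbhd (δ : ℝ) (hδ : 0 < δ) : ∃ U : Set G, IsOpen U ∧ (1 : G) ∈ U ∧
    ∀ u ∈ U, ∀ u' ∈ U, tn (u⁻¹ * u') < δ ∧ 0 < (u⁻¹ * u').1 0 0 + (u⁻¹ * u').1 1 1 := by
  have hc1 : Continuous (fun p : G × G => tn (p.1⁻¹ * p.2)) :=
    continuous_tn.comp (by fun_prop)
  have hc2 : Continuous (fun p : G × G => (p.1⁻¹ * p.2).1 0 0 + (p.1⁻¹ * p.2).1 1 1) :=
    ((continuous_entry 0 0).comp (by fun_prop)).add ((continuous_entry 1 1).comp (by fun_prop))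
  have ho : IsOpen {p : G × G | tn (p.1⁻¹ * p.2) < δ ∧
      0 < (p.1⁻¹ * p.2).1 0 0 + (p.1⁻¹ * p.2).1 1 1} :=
    (isOpen_lt hc1 continuous_const).inter (isOpen_lt continuous_const hc2)
  have hm : ((1 : G), (1 : G)) ∈ {p : G × G | tn (p.1⁻¹ * p.2) < δ ∧
      0 < (p.1⁻¹ * p.2).1 0 0 + (p.1⁻¹ * p.2).1 1 1} := by
    rw [Set.mem_setOf_eq]
    simp only [inv_one, mul_one]
    refine ⟨by rw [tn_one]; exact hδ, ?_⟩
    simp
  obtain ⟨U1, U2, hU1, hU2, h1, h2, h12⟩ := isOpen_prod_iff.1 ho 1 1 hm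
  refine ⟨U1 ∩ U2, hU1.inter hU2, ⟨h1, h2⟩, ?_⟩
  intro u hu u' hu'
  have h3 : (u, u') ∈ U1 ×ˢ U2 := ⟨hu.1, hu'.2⟩
  have h4 := h12 h3
  rw [Set.mem_setOf_eq] at h4
  exact h4

/-- two points whose neighbourhoods meet modulo `Γ` -/
def Rel (Γ : Subgroup G) (U : Set G) (s g : G) : Prop :=
  ∃ u ∈ U, ∃ u' ∈ U, ∃ γ ∈ Γ, u * g * γ = u' * s

theorem Rel.symm {Γ : Subgroup G} {U : Set G} {s g : G} (h : Rel Γ U s g) : Rel Γ U g s := by
  obtain ⟨u, hu, u', hu', γ, hγ, h⟩ := h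
  refine ⟨u', hu', u, hu, γ⁻¹, Γ.inv_mem hγ, ?_⟩
  rw [← h]
  group

theorem Rel.refl {Γ : Subgroup G} {U : Set G} (h1U : (1 : G) ∈ U) (g : G) : Rel Γ U g g :=
  ⟨1, h1U, 1, h1U, 1, Γ.one_mem, by simp⟩

/-- separated families of thick points -/
def Adm (Γ : Subgroup G) (U : Set G) (δ : ℝ) (S : Finset G) : Prop :=
  (∀ s ∈ S, Th Γ δ s) ∧ ∀ s ∈ S, ∀ s' ∈ S, s ≠ s' → ¬ Rel Γ U s s'

theorem adm_card (Γ : Subgroup G) (μ : Measure G) (D : Set G) (hΓ : DiscreteTopology Γ)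
    (hμr : μ.IsMulRightInvariant) (hD : IsFundamentalDomain Γ.op D μ)
    (δ : ℝ) (U : Set G) (hUo : IsOpen U)
    (hUW : ∀ u ∈ U, ∀ u' ∈ U, tn (u⁻¹ * u') < δ ∧ 0 < (u⁻¹ * u').1 0 0 + (u⁻¹ * u').1 1 1)
    (S : Finset G) (hS : Adm Γ U δ S) : (S.card : ENNReal) * μ U ≤ μ D := by
  classical
  haveI : SecondCountableTopology G := by
    haveI : SecondCountableTopology (Matrix (Fin 2) (Fin 2) ℝ) :=
      inferInstanceAs (SecondCountableTopology (Fin 2 → Fin 2 → ℝ))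
    exact TopologicalSpace.Subtype.secondCountableTopology _
  haveI : Countable Γ := by
    haveI := hΓ
    exact TopologicalSpace.separableSpace_iff_countable.1 inferInstance
  haveI : Countable Γ.op := by
    have e : Γ ≃ Γ.op := Γ.equivOp
    exact e.symm.injective.countable
  obtain ⟨hS1, hS2⟩ := hS
  set A : Set G := ⋃ s ∈ S, (fun x => x * s⁻¹) ⁻¹' U with hA
  have hmeas : ∀ s : G, MeasurableSet ((fun x : G => x * s⁻¹) ⁻¹' U) := fun s =>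
    (hUo.preimage (continuous_mul_const s⁻¹)).measurableSet
  have hAm : MeasurableSet A := Finset.measurableSet_biUnion _ (fun s _ => hmeas s)
  have hAμ : μ A = S.card * μ U := by
    rw [hA, measure_biUnion_finset ?_ (fun s _ => hmeas s)]
    · have : ∀ s ∈ S, μ ((fun x : G => x * s⁻¹) ⁻¹' U) = μ U := fun s _ =>
        measure_preimage_mul_right μ s⁻¹ U
      rw [Finset.sum_congr rfl this, Finset.sum_const, nsmul_eq_mul]
    · intro s hs s' hs' hne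
      rw [Function.onFun, Set.disjoint_left]
      intro x hx hx'
      refine hS2 s hs s' hs' hne ⟨x * s'⁻¹, hx', x * s⁻¹, hx, 1, Γ.one_mem, ?_⟩
      group
  rw [← hAμ]
  refine hD.measure_le_of_pairwise_disjoint hAm.nullMeasurableSet ?_
  intro a b hab
  refine Disjoint.aedisjoint ?_
  rw [Set.disjoint_left]
  rintro x ⟨hxa, -⟩ ⟨hxb, -⟩
  rw [Set.mem_smul_set] at hxa hxb
  obtain ⟨y, hy, hyx⟩ := hxa
  obtain ⟨z, hz, hzx⟩ := hxb
  rw [hA, Set.mem_iUnion₂] at hy hz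
  obtain ⟨s, hs, hy⟩ := hy
  obtain ⟨s', hs', hz⟩ := hz
  rw [Set.mem_preimage] at hy hz
  obtain ⟨α, hα⟩ : ∃ α : G, α = MulOpposite.unop a.1 := ⟨_, rfl⟩
  obtain ⟨β, hβ⟩ : ∃ β : G, β = MulOpposite.unop b.1 := ⟨_, rfl⟩
  have hαΓ : α ∈ Γ := by rw [hα]; exact Subgroup.mem_op.1 a.2
  have hβΓ : β ∈ Γ := by rw [hβ]; exact Subgroup.mem_op.1 b.2
  have hyx' : y * α = x := by rw [hα]; exact hyx
  have hzx' : z * β = x := by rw [hβ]; exact hzx
  have key : (y * s⁻¹) * s * (α * β⁻¹) = (z * s'⁻¹) * s' := by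
    have h1 : y * α = z * β := hyx'.trans hzx'.symm
    calc (y * s⁻¹) * s * (α * β⁻¹) = (y * α) * β⁻¹ := by group
      _ = z * β * β⁻¹ := by rw [h1]
      _ = (z * s'⁻¹) * s' := by group
  by_cases hss : s = s'
  · rw [← hss] at hz key
    have hw := hUW _ hy _ hz
    have e : s * (α * β⁻¹) * s⁻¹ = (y * s⁻¹)⁻¹ * (z * s⁻¹) := by
      have h2 : z = (y * s⁻¹) * s * (α * β⁻¹) := by rw [key]; group
      rw [h2]
      group
    have hne1 : α * β⁻¹ ≠ 1 := by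
      intro h
      apply hab
      have h3 : α = β := mul_inv_eq_one.1 h
      rw [hα, hβ] at h3
      exact Subtype.ext (MulOpposite.unop_injective h3)
    rw [← e] at hw
    have hne2 : α * β⁻¹ ≠ -1 := by
      intro h
      rw [h] at hw
      have h4 : s * -1 * s⁻¹ = (-1 : G) := by simp
      rw [h4] at hw
      have h5 := hw.2
      have h6 : ((-1 : G)).1 0 0 = -1 := by simp
      have h7 : ((-1 : G)).1 1 1 = -1 := by simp
      rw [h6, h7] at h5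
      linarith
    have h6 := hS1 s hs (α * β⁻¹) (Γ.mul_mem hαΓ (Γ.inv_mem hβΓ)) hne1 hne2
    exact absurd hw.1 (not_lt.2 h6)
  · exact hS2 s' hs' s hs (fun h => hss h.symm) ⟨y * s⁻¹, hy, z * s'⁻¹, hz, α * β⁻¹,
      Γ.mul_mem hαΓ (Γ.inv_mem hβΓ), key⟩

theorem thick_bound (Γ : Subgroup G) (μ : Measure G) (D : Set G) (hΓ : DiscreteTopology Γ)
    (hμ : μ.IsHaarMeasure) (hμr : μ.IsMulRightInvariant) (hD : IsFundamentalDomain Γ.op D μ)
    (hfin : μ D < ⊤) (δ : ℝ) (hδ : 0 < δ) :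
    ∃ C : ℝ, 0 < C ∧ ∀ g, Th Γ δ g → ∃ γ ∈ Γ, hs (g * γ) ≤ C := by
  classical
  obtain ⟨U, hUo, h1U, hUW⟩ := nbhd δ hδ
  have hUpos : μ U ≠ 0 := (hUo.measure_pos μ ⟨1, h1U⟩).ne'
  have hcard : ∀ S : Finset G, Adm Γ U δ S → (S.card : ENNReal) * μ U ≤ μ D :=
    adm_card Γ μ D hΓ hμr hD δ U hUo hUW
  -- bounded cardinality
  obtain ⟨n, hn⟩ := ENNReal.exists_nat_mul_gt hUpos hfin.ne
  have hcard' : ∀ S : Finset G, Adm Γ U δ S → S.card < n := by
    intro S hS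
    by_contra hlt
    rw [not_lt] at hlt
    have h1 : (n : ENNReal) * μ U ≤ (S.card : ENNReal) * μ U := by
      gcongr
    exact absurd (h1.trans (hcard S hS)) (not_le.2 hn)
  -- a maximal family
  have hmax : ∃ S : Finset G, Adm Γ U δ S ∧ ∀ S', Adm Γ U δ S' → S'.card ≤ S.card := by
    by_contra hno
    push Not at hno
    have : ∀ k : ℕ, ∃ S : Finset G, Adm Γ U δ S ∧ k ≤ S.card := by
      intro k
      induction k with
      | zero => exact ⟨∅, ⟨by simp, by simp⟩, Nat.zero_le _⟩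
      | succ k ih =>
        obtain ⟨S, hS, hk⟩ := ih
        obtain ⟨S', hS', hlt⟩ := hno S hS
        exact ⟨S', hS', by omega⟩
    obtain ⟨S, hS, hk⟩ := this n
    exact absurd (hcard' S hS) (not_lt.2 hk)
  obtain ⟨S, hS, hSmax⟩ := hmax
  refine ⟨Real.sqrt (2 + 4 * δ ^ 2) * (∑ s ∈ S, hs s) + 1, ?_, ?_⟩
  · have : 0 ≤ ∑ s ∈ S, hs s := Finset.sum_nonneg fun s _ => hs_nonneg s
    positivity
  intro g hg
  have hrel : ∃ s ∈ S, Rel Γ U s g := by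
    by_contra hno
    push Not at hno
    have hgS : g ∉ S := fun h => hno g h (Rel.refl h1U g)
    have hadm : Adm Γ U δ (insert g S) := by
      refine ⟨?_, ?_⟩
      · intro s hs
        rw [Finset.mem_insert] at hs
        rcases hs with rfl | hs
        · exact hg
        · exact hS.1 s hs
      · intro s hs s' hs' hne
        rw [Finset.mem_insert] at hs hs'
        rcases hs with rfl | hs
        · rcases hs' with rfl | hs'
          · exact absurd rfl hne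
          · exact fun h => hno s' hs' h.symm
        · rcases hs' with rfl | hs'
          · exact hno s hs
          · exact hS.2 s hs s' hs' hne
    have := hSmax _ hadm
    rw [Finset.card_insert_of_notMem hgS] at this
    omega
  obtain ⟨s, hsS, u, hu, u', hu', γ, hγ, h⟩ := hrel
  refine ⟨γ, hγ, ?_⟩
  have e : g * γ = (u⁻¹ * u') * s := by
    rw [mul_assoc, ← h]
    group
  rw [e]
  have h1 : hs (u⁻¹ * u') ≤ Real.sqrt (2 + 4 * δ ^ 2) := by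
    refine Real.le_sqrt_of_sq_le ((hs_le_tn _).trans ?_)
    have h2 := (hUW u hu u' hu').1
    have h3 := tn_nonneg (u⁻¹ * u')
    have h4 : tn (u⁻¹ * u') ^ 2 ≤ δ ^ 2 := pow_le_pow_left₀ h3 h2.le 2
    linarith
  have h2 : Helper73.Dil.hs s ≤ ∑ s ∈ S, Helper73.Dil.hs s :=
    Finset.single_le_sum (f := fun s => Helper73.Dil.hs s) (fun s _ => hs_nonneg s) hsS
  calc Helper73.Dil.hs (u⁻¹ * u' * s) ≤ Helper73.Dil.hs (u⁻¹ * u') * Helper73.Dil.hs s :=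
        hs_mul _ _
    _ ≤ Real.sqrt (2 + 4 * δ ^ 2) * (∑ s ∈ S, Helper73.Dil.hs s) :=
        mul_le_mul h1 h2 (hs_nonneg _) (Real.sqrt_nonneg _)
    _ ≤ _ := by linarith

/-! ### Leaving the thin part -/

theorem dia00 (t : ℝ) : (dia t).1 0 0 = Real.exp (t / 2) := rfl
theorem dia01 (t : ℝ) : (dia t).1 0 1 = 0 := rfl
theorem dia10 (t : ℝ) : (dia t).1 1 0 = 0 := rfl
theorem dia11 (t : ℝ) : (dia t).1 1 1 = Real.exp (-(t / 2)) := rfl

theorem tn_dia (t : ℝ) (M : G) : tn (dia t * M * (dia t)⁻¹) =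
    Real.sqrt (((M.1 0 0 - M.1 1 1) / 2) ^ 2 +
      ((Real.exp t * M.1 0 1) ^ 2 + (Real.exp (-t) * M.1 1 0) ^ 2) / 2) := by
  have e1 : Real.exp (t / 2) * Real.exp (-(t / 2)) = 1 := by
    rw [← Real.exp_add]; simp
  have e2 : Real.exp t = Real.exp (t / 2) * Real.exp (t / 2) := by
    rw [← Real.exp_add]; congr 1; ring
  have e3 : Real.exp (-t) = Real.exp (-(t / 2)) * Real.exp (-(t / 2)) := by
    rw [← Real.exp_add]; congr 1; ring
  unfold tn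
  congr 1
  simp only [mul00, mul01, mul10, mul11, inv00, inv01, inv10, inv11, dia00, dia01, dia10, dia11]
  rw [e2, e3]
  set a := Real.exp (t / 2)
  set b := Real.exp (-(t / 2))
  have h1 : (a * M.1 0 0 + 0 * M.1 1 0) * b + (a * M.1 0 1 + 0 * M.1 1 1) * -0 = M.1 0 0 := by
    linear_combination (M.1 0 0) * e1
  have h2 : (0 * M.1 0 0 + b * M.1 1 0) * -0 + (0 * M.1 0 1 + b * M.1 1 1) * a = M.1 1 1 := by
    linear_combination (M.1 1 1) * e1
  rw [h1, h2]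
  ring

/-- rotations by multiples of `π/4`, written with cosine and sine -/
noncomputable def kk (c s : ℝ) (h : c ^ 2 + s ^ 2 = 1) : G :=
  ⟨!![c, -s; s, c], by rw [Matrix.det_fin_two_of]; linarith⟩

theorem exists_rot (N : G) : ∃ k : G, hs k ^ 2 = 2 ∧ tn (k * N * k⁻¹) = tn N ∧
    tn N ^ 2 / 2 ≤ (k * N * k⁻¹).1 0 1 ^ 2 := by
  have key : ∀ (c s : ℝ) (h : c ^ 2 + s ^ 2 = 1), hs (kk c s h) ^ 2 = 2 ∧
      tn (kk c s h * N * (kk c s h)⁻¹) = tn N ∧ (kk c s h * N * (kk c s h)⁻¹).1 0 1 =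
        2 * c * s * ((N.1 0 0 - N.1 1 1) / 2) + (c ^ 2 - s ^ 2) * ((N.1 0 1 + N.1 1 0) / 2) +
          (N.1 0 1 - N.1 1 0) / 2 := by
    intro c s h
    have k00 : (kk c s h).1 0 0 = c := rfl
    have k01 : (kk c s h).1 0 1 = -s := rfl
    have k10 : (kk c s h).1 1 0 = s := rfl
    have k11 : (kk c s h).1 1 1 = c := rfl
    have h01 : (kk c s h * N * (kk c s h)⁻¹).1 0 1 =
        2 * c * s * ((N.1 0 0 - N.1 1 1) / 2) + (c ^ 2 - s ^ 2) * ((N.1 0 1 + N.1 1 0) / 2) +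
          (N.1 0 1 - N.1 1 0) / 2 := by
      simp only [mul00, mul01, mul10, mul11, inv00, inv01, inv10, inv11, k00, k01, k10, k11]
      linear_combination ((N.1 0 1 - N.1 1 0) / 2) * h
    have h10 : (kk c s h * N * (kk c s h)⁻¹).1 1 0 =
        2 * c * s * ((N.1 0 0 - N.1 1 1) / 2) + (c ^ 2 - s ^ 2) * ((N.1 0 1 + N.1 1 0) / 2) -
          (N.1 0 1 - N.1 1 0) / 2 := by
      simp only [mul00, mul01, mul10, mul11, inv00, inv01, inv10, inv11, k00, k01, k10, k11]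
      linear_combination (-(N.1 0 1 - N.1 1 0) / 2) * h
    have hd : ((kk c s h * N * (kk c s h)⁻¹).1 0 0 - (kk c s h * N * (kk c s h)⁻¹).1 1 1) / 2 =
        (c ^ 2 - s ^ 2) * ((N.1 0 0 - N.1 1 1) / 2) - 2 * c * s * ((N.1 0 1 + N.1 1 0) / 2) := by
      simp only [mul00, mul01, mul10, mul11, inv00, inv01, inv10, inv11, k00, k01, k10, k11]
      ring
    refine ⟨?_, ?_, h01⟩
    · rw [hs_sq, k00, k01, k10, k11]
      nlinarith
    · unfold tn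
      congr 1
      rw [h01, h10, hd]
      have h4 : (c ^ 2 + s ^ 2) ^ 2 = 1 := by rw [h]; norm_num
      linear_combination (((N.1 0 0 - N.1 1 1) / 2) ^ 2 + ((N.1 0 1 + N.1 1 0) / 2) ^ 2) * h4
  set x := (N.1 0 0 - N.1 1 1) / 2 with hx
  set p := (N.1 0 1 + N.1 1 0) / 2 with hp
  set q := (N.1 0 1 - N.1 1 0) / 2 with hq
  have htn : tn N ^ 2 = x ^ 2 + p ^ 2 + q ^ 2 := by
    rw [tn_sq, hx, hp, hq]; ring
  have hr : (Real.sqrt (1 / 2)) ^ 2 = 1 / 2 := Real.sq_sqrt (by norm_num)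
  by_contra hno
  push Not at hno
  have f1 : (1 : ℝ) ^ 2 + 0 ^ 2 = 1 := by norm_num
  have f2 : (0 : ℝ) ^ 2 + 1 ^ 2 = 1 := by norm_num
  have f3 : (Real.sqrt (1 / 2)) ^ 2 + (Real.sqrt (1 / 2)) ^ 2 = 1 := by rw [hr]; norm_num
  have f4 : (Real.sqrt (1 / 2)) ^ 2 + (-Real.sqrt (1 / 2)) ^ 2 = 1 := by rw [neg_sq, hr]; norm_num
  obtain ⟨a1, a2, a3⟩ := key 1 0 f1
  obtain ⟨b1, b2, b3⟩ := key 0 1 f2
  obtain ⟨c1, c2, c3⟩ := key _ _ f3
  obtain ⟨d1, d2, d3⟩ := key _ _ f4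
  have g1 := hno _ a1 a2
  have g2 := hno _ b1 b2
  have g3 := hno _ c1 c2
  have g4 := hno _ d1 d2
  rw [a3] at g1
  rw [b3] at g2
  rw [c3] at g3
  rw [d3] at g4
  have e3 : 2 * Real.sqrt (1 / 2) * Real.sqrt (1 / 2) * x +
      ((Real.sqrt (1 / 2)) ^ 2 - (Real.sqrt (1 / 2)) ^ 2) * p + q = x + q := by
    linear_combination (2 * x) * hr
  have e4 : 2 * Real.sqrt (1 / 2) * (-Real.sqrt (1 / 2)) * x +
      ((Real.sqrt (1 / 2)) ^ 2 - (-Real.sqrt (1 / 2)) ^ 2) * p + q = -x + q := by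
    linear_combination (-2 * x) * hr
  rw [e3] at g3
  rw [e4] at g4
  rw [htn] at g1 g2 g3 g4
  nlinarith

theorem hs_dia {t : ℝ} (ht : 0 ≤ t) : hs (dia t) ^ 2 ≤ 2 * Real.exp t := by
  rw [hs_sq, dia00, dia01, dia10, dia11]
  have e2 : Real.exp (t / 2) ^ 2 = Real.exp t := by
    rw [sq, ← Real.exp_add]; congr 1; ring
  have e3 : Real.exp (-(t / 2)) ^ 2 = Real.exp (-t) := by
    rw [sq, ← Real.exp_add]; congr 1; ring
  have e4 : Real.exp (-t) ≤ Real.exp t := Real.exp_le_exp.2 (by linarith)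
  rw [e2, e3]
  linarith

/-- Leaving the thin part. -/
theorem exit (N : G) (ε : ℝ) (h0 : 0 < tn N) (h1 : tn N ≤ ε) :
    ∃ h : G, tn (h * N * h⁻¹) = ε ∧ hs h⁻¹ ≤ Real.sqrt (8 * ε) * (tn N) ^ (-(1 / 2) : ℝ) := by
  obtain ⟨k, hk, hkt, hkb⟩ := exists_rot N
  have hε : 0 < ε := h0.trans_le h1
  set M := k * N * k⁻¹ with hM
  set F : ℝ → ℝ := fun t => tn (dia t * M * (dia t)⁻¹) with hF
  have hF' : F = fun t => Real.sqrt (((M.1 0 0 - M.1 1 1) / 2) ^ 2 +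
      ((Real.exp t * M.1 0 1) ^ 2 + (Real.exp (-t) * M.1 1 0) ^ 2) / 2) := by
    funext t
    exact tn_dia t M
  have hFc : Continuous F := by
    rw [hF']
    fun_prop
  have hdia0 : dia 0 = 1 := by
    apply Subtype.ext
    ext i j
    fin_cases i <;> fin_cases j <;> simp [dia]
  have hF0 : F 0 = tn N := by
    simp only [hF]
    rw [hdia0]
    simpa using hkt
  set T := Real.log (2 * ε / tn N) with hT
  have hT0 : 0 ≤ T := by
    apply Real.log_nonneg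
    rw [le_div_iff₀ h0]
    linarith
  have hFT : ε ≤ F T := by
    rw [hF']
    refine Real.le_sqrt_of_sq_le ?_
    have e1 : Real.exp T = 2 * ε / tn N := Real.exp_log (by positivity)
    rw [e1]
    have e2 : ε ^ 2 = (2 * ε / tn N) ^ 2 * (tn N ^ 2 / 2) / 2 := by
      have hne : tn N ≠ 0 := h0.ne'
      field_simp
    rw [e2]
    have e3 : (2 * ε / tn N) ^ 2 * (tn N ^ 2 / 2) ≤ (2 * ε / tn N * M.1 0 1) ^ 2 := by
      rw [mul_pow]
      exact mul_le_mul_of_nonneg_left hkb (by positivity)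
    have e4 : 0 ≤ (Real.exp (-T) * M.1 1 0) ^ 2 := sq_nonneg _
    have e5 : 0 ≤ ((M.1 0 0 - M.1 1 1) / 2) ^ 2 := sq_nonneg _
    linarith
  obtain ⟨t, ht, hFt⟩ : ε ∈ F '' Set.Icc 0 T :=
    intermediate_value_Icc hT0 hFc.continuousOn ⟨by rw [hF0]; exact h1, hFT⟩
  refine ⟨dia t * k, ?_, ?_⟩
  · have : dia t * k * N * (dia t * k)⁻¹ = dia t * M * (dia t)⁻¹ := by
      rw [hM]; group
    rw [this]
    exact hFt
  · rw [hs_inv]
    have h2 : hs (dia t * k) ≤ hs (dia t) * hs k := hs_mul _ _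
    refine h2.trans ?_
    refine le_of_sq_le_sq ?_ (by positivity)
    have e0 : (tn N ^ (-(1 / 2) : ℝ)) ^ 2 = (tn N)⁻¹ := by
      rw [← Real.rpow_natCast, ← Real.rpow_mul (tn_nonneg _)]
      have e1 : (-(1 / 2) : ℝ) * ((2 : ℕ) : ℝ) = -1 := by norm_num
      rw [e1, Real.rpow_neg_one]
    rw [mul_pow, hk, mul_pow, Real.sq_sqrt (by positivity), e0]
    have e2 : hs (dia t) ^ 2 ≤ 2 * (2 * ε / tn N) := by
      refine (hs_dia ht.1).trans ?_
      have e1 : Real.exp T = 2 * ε / tn N := Real.exp_log (by positivity)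
      rw [← e1]
      exact mul_le_mul_of_nonneg_left (Real.exp_le_exp.2 ht.2) (by norm_num)
    calc hs (dia t) ^ 2 * 2 ≤ 2 * (2 * ε / tn N) * 2 := by linarith
      _ = 8 * ε * (tn N)⁻¹ := by field_simp; ring

/-- GROW. -/
theorem st_GROW (hZ : ST_ZAS) (hR : ST_RATIO) : ST_GROW := by
  intro Γ μ D hΓ hμ hμr hD hfin
  obtain ⟨ε0, hε0, hzas⟩ := hZ
  set ε1 : ℝ := ε0 / 2 with hε1
  have hε1p : 0 < ε1 := by positivity
  have hε10 : ε1 < ε0 := by rw [hε1]; linarith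
  obtain ⟨C1, hC1, hthick⟩ := thick_bound Γ μ D hΓ hμ hμr hD hfin (ε1 / 2) (by positivity)
  set C2 : ℝ := Real.sqrt (8 * ε1) * C1 + C1 + 1 with hC2
  have hs8 : 0 ≤ Real.sqrt (8 * ε1) := Real.sqrt_nonneg _
  have hC2p : 0 < C2 := by positivity
  refine ⟨ENNReal.ofReal C2, ENNReal.ofReal_lt_top, fun g => ?_⟩
  have hC2ne : ENNReal.ofReal C2 ≠ 0 := by
    rw [Ne, ENNReal.ofReal_eq_zero, not_le]
    exact hC2p
  by_cases htop : lam Γ g = ⊤
  · refine ⟨1, Γ.one_mem, ?_⟩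
    rw [htop, add_top, ENNReal.mul_top hC2ne]
    exact le_top
  by_cases hth : Th Γ (ε1 / 2) g
  · obtain ⟨γ, hγ, h⟩ := hthick g hth
    refine ⟨γ, hγ, ?_⟩
    have h1 : hs (g * γ) ≤ C2 := by
      refine h.trans ?_
      rw [hC2]
      have : 0 ≤ Real.sqrt (8 * ε1) * C1 := by positivity
      linarith
    calc ENNReal.ofReal (hs (g * γ)) ≤ ENNReal.ofReal C2 := ENNReal.ofReal_le_ofReal h1
      _ = ENNReal.ofReal C2 * 1 := (mul_one _).symm
      _ ≤ ENNReal.ofReal C2 * (1 + lam Γ g) := by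
        gcongr
        exact le_self_add
  -- thin part
  unfold Th at hth
  push Not at hth
  obtain ⟨γ1, hγ1, hγ11, hγ12, hlt1⟩ := hth
  set S : Set ℝ := {x | ∃ γ ∈ Γ, γ ≠ 1 ∧ γ ≠ -1 ∧ tn (g * γ * g⁻¹) = x} with hS
  have hlam : ∀ γ ∈ Γ, γ ≠ 1 → γ ≠ -1 →
      ENNReal.ofReal ((tn (g * γ * g⁻¹)) ^ (-(1 / 2) : ℝ)) ≤ lam Γ g := by
    intro γ hγ h1 h2
    exact le_iSup (fun γ : {γ : G // γ ∈ Γ ∧ γ ≠ 1 ∧ γ ≠ -1} =>
      ENNReal.ofReal ((tn (g * γ.1 * g⁻¹)) ^ (-(1 / 2) : ℝ))) ⟨γ, hγ, h1, h2⟩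
  -- tn is nonzero on the conjugates
  have htn0 : ∀ γ : G, γ ≠ 1 → γ ≠ -1 → 0 < tn (g * γ * g⁻¹) := by
    intro γ h1 h2
    rcases (tn_nonneg (g * γ * g⁻¹)).lt_or_eq with h | h
    · exact h
    · exfalso
      have h3 : tn (g * γ * g⁻¹) ^ 2 = 0 := by rw [← h]; norm_num
      rw [tn_sq] at h3
      set N := g * γ * g⁻¹ with hN
      have h4 : ((N.1 0 0 - N.1 1 1) / 2) ^ 2 = 0 := by nlinarith [sq_nonneg ((N.1 0 0 - N.1 1 1) / 2), sq_nonneg (N.1 0 1), sq_nonneg (N.1 1 0)]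
      have h5 : N.1 0 1 ^ 2 = 0 := by nlinarith [sq_nonneg ((N.1 0 0 - N.1 1 1) / 2), sq_nonneg (N.1 0 1), sq_nonneg (N.1 1 0)]
      have h6 : N.1 1 0 ^ 2 = 0 := by nlinarith [sq_nonneg ((N.1 0 0 - N.1 1 1) / 2), sq_nonneg (N.1 0 1), sq_nonneg (N.1 1 0)]
      have h4' : N.1 0 0 = N.1 1 1 := by
        have := pow_eq_zero_iff (two_ne_zero) |>.1 h4
        linarith
      have h5' : N.1 0 1 = 0 := pow_eq_zero_iff (two_ne_zero) |>.1 h5
      have h6' : N.1 1 0 = 0 := pow_eq_zero_iff (two_ne_zero) |>.1 h6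
      have hdet := det_eq N
      rw [h4', h5', h6'] at hdet
      have h7 : (N.1 1 1 - 1) * (N.1 1 1 + 1) = 0 := by linarith
      have hγN : γ = g⁻¹ * N * g := by rw [hN]; group
      rcases mul_eq_zero.1 h7 with h8 | h8
      · have h9 : N = 1 := by
          apply Subtype.ext
          ext i j
          fin_cases i <;> fin_cases j
          · show N.1 0 0 = _
            rw [h4']; simp; linarith
          · show N.1 0 1 = _
            rw [h5']; simp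
          · show N.1 1 0 = _
            rw [h6']; simp
          · show N.1 1 1 = _
            simp; linarith
        exact h1 (by rw [hγN, h9]; simp)
      · have h9 : N = -1 := by
          apply Subtype.ext
          ext i j
          fin_cases i <;> fin_cases j
          · show N.1 0 0 = _
            rw [h4']; simp; linarith
          · show N.1 0 1 = _
            rw [h5']; simp
          · show N.1 1 0 = _
            rw [h6']; simp
          · show N.1 1 1 = _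
            simp; linarith
        exact h2 (by rw [hγN, h9]; simp)
  -- the infimum is positive
  set L := (lam Γ g).toReal with hL
  have hlamL : ENNReal.ofReal L = lam Γ g := ENNReal.ofReal_toReal htop
  have hL0 : 0 ≤ L := ENNReal.toReal_nonneg
  have hbd : ∀ γ ∈ Γ, γ ≠ 1 → γ ≠ -1 → (tn (g * γ * g⁻¹)) ^ (-(1 / 2) : ℝ) ≤ L := by
    intro γ hγ h1 h2
    have := hlam γ hγ h1 h2
    rw [← hlamL] at this
    exact (ENNReal.ofReal_le_ofReal_iff hL0).1 this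
  have hLpos : 0 < L := by
    refine lt_of_lt_of_le ?_ (hbd γ1 hγ1 hγ11 hγ12)
    exact Real.rpow_pos_of_pos (htn0 γ1 hγ11 hγ12) _
  have hlow : ∀ x ∈ S, (L ^ 2)⁻¹ ≤ x := by
    rintro x ⟨γ, hγ, h1, h2, rfl⟩
    have h3 := hbd γ hγ h1 h2
    have h4 := htn0 γ h1 h2
    have h5 : ((tn (g * γ * g⁻¹)) ^ (-(1 / 2) : ℝ)) ^ 2 ≤ L ^ 2 :=
      pow_le_pow_left₀ (Real.rpow_nonneg h4.le _) h3 2
    have e0 : (tn (g * γ * g⁻¹) ^ (-(1 / 2) : ℝ)) ^ 2 = (tn (g * γ * g⁻¹))⁻¹ := by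
      rw [← Real.rpow_natCast, ← Real.rpow_mul h4.le]
      have e1 : (-(1 / 2) : ℝ) * ((2 : ℕ) : ℝ) = -1 := by norm_num
      rw [e1, Real.rpow_neg_one]
    rw [e0] at h5
    exact inv_le_of_inv_le₀ h4 h5
  have hSne : S.Nonempty := ⟨_, γ1, hγ1, hγ11, hγ12, rfl⟩
  have hSbd : BddBelow S := ⟨_, hlow⟩
  set m := sInf S with hm
  have hmpos : 0 < m := lt_of_lt_of_le (by positivity) (le_csInf hSne hlow)
  have hmlt : m < ε1 / 2 := lt_of_le_of_lt (csInf_le hSbd ⟨γ1, hγ1, hγ11, hγ12, rfl⟩) hlt1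
  obtain ⟨x, ⟨γ0, hγ0, hγ01, hγ02, rfl⟩, hx⟩ :=
    exists_lt_of_csInf_lt hSne (show sInf S < min (2 * m) ε1 by
      rw [← hm]
      exact lt_min (by linarith) (by linarith))
  have hx1 : tn (g * γ0 * g⁻¹) < 2 * m := hx.trans_le (min_le_left _ _)
  have hx2 : tn (g * γ0 * g⁻¹) < ε1 := hx.trans_le (min_le_right _ _)
  have hx0 := htn0 γ0 hγ01 hγ02
  obtain ⟨h, hh1, hh2⟩ := exit (g * γ0 * g⁻¹) ε1 hx0 hx2.le
  have hconj : ∀ γ : G, h * (g * γ * g⁻¹) * h⁻¹ = (h * g) * γ * (h * g)⁻¹ := by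
    intro γ; group
  have hthk : Th Γ (ε1 / 2) (h * g) := by
    intro γ hγ h1 h2
    by_contra hlt
    rw [not_le] at hlt
    have hcomm : γ * γ0 = γ0 * γ := hzas Γ hΓ (h * g) γ γ0 hγ hγ0 (by linarith)
      (by rw [← hconj, hh1]; exact hε10)
    obtain ⟨κ, hκ, hκ'⟩ := hR γ0 γ hcomm.symm hγ01 hγ02 h1 h2
    have h3 := hκ' (h * g)
    rw [← hconj γ0, hh1] at h3
    rw [h3] at hlt
    have h4 : κ < 1 / 2 := by
      by_contra h5
      rw [not_lt] at h5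
      have : 1 / 2 * ε1 ≤ κ * ε1 := mul_le_mul_of_nonneg_right h5 hε1p.le
      linarith
    have h5 := hκ' g
    have h6 : m ≤ tn (g * γ * g⁻¹) := csInf_le hSbd ⟨γ, hγ, h1, h2, rfl⟩
    rw [h5] at h6
    have h7 : κ * tn (g * γ0 * g⁻¹) < 1 / 2 * (2 * m) := by
      calc κ * tn (g * γ0 * g⁻¹) < 1 / 2 * tn (g * γ0 * g⁻¹) := mul_lt_mul_of_pos_right h4 hx0
        _ ≤ 1 / 2 * (2 * m) := by linarith
    linarith
  obtain ⟨γ, hγ, hfinal⟩ := hthick _ hthk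
  refine ⟨γ, hγ, ?_⟩
  have h8 : hs (g * γ) ≤ (Real.sqrt (8 * ε1) * (tn (g * γ0 * g⁻¹)) ^ (-(1 / 2) : ℝ)) * C1 := by
    have e : g * γ = h⁻¹ * (h * g * γ) := by group
    rw [e]
    exact (hs_mul _ _).trans (mul_le_mul hh2 hfinal (hs_nonneg _) (by positivity))
  have h9 : hs (g * γ) ≤ C2 * (tn (g * γ0 * g⁻¹)) ^ (-(1 / 2) : ℝ) := by
    refine h8.trans ?_
    have h10 : Real.sqrt (8 * ε1) * C1 ≤ C2 := by rw [hC2]; linarith
    calc (Real.sqrt (8 * ε1) * (tn (g * γ0 * g⁻¹)) ^ (-(1 / 2) : ℝ)) * C1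
        = (Real.sqrt (8 * ε1) * C1) * (tn (g * γ0 * g⁻¹)) ^ (-(1 / 2) : ℝ) := by ring
      _ ≤ C2 * (tn (g * γ0 * g⁻¹)) ^ (-(1 / 2) : ℝ) :=
        mul_le_mul_of_nonneg_right h10 (Real.rpow_nonneg hx0.le _)
  calc ENNReal.ofReal (hs (g * γ))
      ≤ ENNReal.ofReal (C2 * (tn (g * γ0 * g⁻¹)) ^ (-(1 / 2) : ℝ)) := ENNReal.ofReal_le_ofReal h9
    _ = ENNReal.ofReal C2 * ENNReal.ofReal ((tn (g * γ0 * g⁻¹)) ^ (-(1 / 2) : ℝ)) :=
        ENNReal.ofReal_mul hC2p.le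
    _ ≤ ENNReal.ofReal C2 * (1 + lam Γ g) := by
        gcongr
        exact (hlam γ0 hγ0 hγ01 hγ02).trans le_add_self

end Pool.Agent.Helper25.Dil
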